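import Pool.Agent.Helper68.ChainProb

/-!
# MP_041baa_co: greedy exploration is not a constant factor approximation

There are random spanning tree models for which, with probability tending to `1` along a sequence
of `n`, greedy exploration takes more than `(log n / 100)` times the optimal temporal exploration
time (see `Good`, `exists_good`); in particular greedy exploration is not a constant factor
approximation (`result`).

The model: a chain of `m = 2 ^ k` blocks, each consisting of a path and a digon (two parallel arms),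
all of length `2 q + 1`, with a pendant vertex at every junction; the two trees of the model are
obtained by deleting the middle edge of the `true` arm, respectively the `false` arm, of every digon.
-/

namespace Pool.Agent.Results.MP_041baa_co.GreedyDisproof

open Pool.Agent.Helper68 MeasureTheory Filter
open scoped ENNReal

/-- There is a tree on `Fin (n+1)`, hence a random spanning tree model. -/
theorem exists_model (n : ℕ) : Nonempty (RSTModel (n + 1)) := by
  obtain ⟨T, -, hT⟩ := (SimpleGraph.connected_top (V := Fin (n + 1))).exists_isTree_le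
  exact ⟨⟨{T}, by rintro _ rfl; exact hT, PMF.pure T, by
    intro T' hT'
    rw [PMF.support_pure] at hT'
    exact hT'⟩⟩

/-- the property of `n` asked for -/
def Good (n : ℕ) (M : RSTModel (n + 1)) (v₀ : Fin (n + 1)) (pri : Fin (n + 1) → ℕ) : Prop :=
  Function.Injective pri ∧
    M.seqLaw {G | (greedyTime G pri v₀ : ℝ≥0∞) ≤
      ENNReal.ofReal (Real.log (n + 1) / 100) * (texp G : ℝ≥0∞)} ≤ ((n : ℝ≥0∞) + 1)⁻¹

theorem arith1 (k : ℕ) :
    k * (2 ^ k * (2 * (5 * k + 18) + 1)) * 2 *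
      (5 * ((2 * 2 ^ k + 1) * (2 * (5 * k + 18) + 1))) ≤ 2 ^ (5 * k + 18) := by
  have h1 : k < 2 ^ k := Nat.lt_two_pow_self
  have h2 : 2 * (5 * k + 18) + 1 ≤ 64 * 2 ^ k := by omega
  have h3 : 2 * 2 ^ k + 1 ≤ 4 * 2 ^ k := by omega
  calc k * (2 ^ k * (2 * (5 * k + 18) + 1)) * 2 *
        (5 * ((2 * 2 ^ k + 1) * (2 * (5 * k + 18) + 1)))
      ≤ 2 ^ k * (2 ^ k * (64 * 2 ^ k)) * 2 * (5 * ((4 * 2 ^ k) * (64 * 2 ^ k))) := by
        gcongr
    _ = 163840 * 2 ^ (5 * k) := by ring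
    _ ≤ 262144 * 2 ^ (5 * k) := by gcongr; norm_num
    _ = 2 ^ (5 * k + 18) := by rw [pow_add]; norm_num [Nat.mul_comm]

theorem arith2 (k n : ℕ) (hk : 6 ≤ k)
    (hn : n + 1 ≤ 5 * ((2 * 2 ^ k + 1) * (2 * (5 * k + 18) + 1))) :
    Real.log (n + 1) / 100 * 6 < k := by
  have h1 : k < 2 ^ k := Nat.lt_two_pow_self
  have h2 : 2 * (5 * k + 18) + 1 ≤ 64 * 2 ^ k := by omega
  have h3 : 2 * 2 ^ k + 1 ≤ 4 * 2 ^ k := by omega
  have h4 : n + 1 ≤ 2 ^ (2 * k + 11) := by
    calc n + 1 ≤ 5 * ((2 * 2 ^ k + 1) * (2 * (5 * k + 18) + 1)) := hn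
      _ ≤ 5 * ((4 * 2 ^ k) * (64 * 2 ^ k)) := by gcongr
      _ = 1280 * 2 ^ (2 * k) := by ring
      _ ≤ 2048 * 2 ^ (2 * k) := by gcongr; norm_num
      _ = 2 ^ (2 * k + 11) := by rw [pow_add]; norm_num [Nat.mul_comm]
  have h5 : ((n : ℝ) + 1) ≤ 2 ^ (2 * k + 11) := by exact_mod_cast h4
  have h6 : Real.log (n + 1) ≤ (2 * k + 11 : ℕ) * Real.log 2 := by
    rw [← Real.log_pow]
    exact Real.log_le_log (by positivity) h5
  have h7 := Real.log_two_lt_d9
  have h8 : ((2 * k + 11 : ℕ) : ℝ) * Real.log 2 ≤ (2 * k + 11 : ℕ) * 1 := by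
    gcongr
    linarith
  have h9 : (6 : ℝ) ≤ k := by exact_mod_cast hk
  push_cast at h6 h8
  linarith

/-- Infinitely many sizes are good. -/
theorem exists_good (n₀ : ℕ) : ∃ n ≥ n₀, ∃ M v₀ pri, Good n M v₀ pri := by
  obtain ⟨k, hk6, hkn⟩ : ∃ k, 6 ≤ k ∧ n₀ ≤ k := ⟨max 6 n₀, le_max_left _ _, le_max_right _ _⟩
  obtain ⟨q, hq⟩ : ∃ q, q = 5 * k + 18 := ⟨_, rfl⟩
  obtain ⟨m, hm⟩ : ∃ m, m = 2 ^ k := ⟨_, rfl⟩
  have hm0 : 0 < m := by rw [hm]; positivity
  have hq1 : 1 ≤ q := by omega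
  have hc1 := card_CV_le m q
  have hc2 := le_card_CV m q hm0
  obtain ⟨n, hn⟩ : ∃ n, Nat.card (CV m q) = n + 1 := ⟨Nat.card (CV m q) - 1, by omega⟩
  have e : CV m q ≃ Fin (n + 1) := Finite.equivFinOfCardEq hn
  refine ⟨n, by omega, chainModel hq1 e, e ⟨.J 0, Nat.zero_le _⟩,
    fun x => chainPri e (e.symm x), (chainPri_injective e).comp e.symm.injective, ?_⟩
  have hmb := main_bound hk6 hq1 hm e
  refine (measure_mono ?_).trans (hmb.trans ?_)
  · intro G hG hgood
    obtain ⟨h1, h2⟩ := hgood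
    simp only [Set.mem_ofPred_eq] at hG
    have hlog : Real.log (n + 1) / 100 * 6 < k := by
      refine arith2 k n hk6 ?_
      rw [← hn, ← hm, ← hq]
      exact hc1
    have hlog0 : 0 ≤ Real.log (n + 1) / 100 := by
      have : (1 : ℝ) ≤ n + 1 := by
        have : (0 : ℝ) ≤ n := Nat.cast_nonneg n
        linarith
      have := Real.log_nonneg this
      positivity
    generalize Real.log (n + 1) / 100 = c at hG hlog hlog0
    have h3 : ((k * (m * (2 * q + 1)) : ℕ) : ℝ≥0∞) ≤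
        ENNReal.ofReal c * ((6 * (m * (2 * q + 1)) : ℕ) : ℝ≥0∞) := by
      have h4 : (((k * (m * (2 * q + 1)) : ℕ) : ℕ∞) : ℝ≥0∞) ≤
          (greedyTime G (fun x => chainPri e (e.symm x)) (e ⟨.J 0, Nat.zero_le _⟩) : ℝ≥0∞) :=
        ENat.toENNReal_le.2 h1
      have h5 : (texp G : ℝ≥0∞) ≤ (((6 * (m * (2 * q + 1)) : ℕ) : ℕ∞) : ℝ≥0∞) :=
        ENat.toENNReal_le.2 h2
      rw [ENat.toENNReal_coe] at h4 h5
      exact h4.trans (hG.trans (mul_le_mul_right h5 _))
    have hmw : 0 < m * (2 * q + 1) := by positivity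
    generalize m * (2 * q + 1) = w at h3 hmw
    have hw : (0 : ℝ) < w := by exact_mod_cast hmw
    rw [← ENNReal.ofReal_natCast, ← ENNReal.ofReal_natCast, ← ENNReal.ofReal_mul hlog0] at h3
    rw [ENNReal.ofReal_le_ofReal_iff (by positivity)] at h3
    push_cast at h3
    nlinarith
  · rw [ENNReal.le_inv_iff_mul_le]
    have h1 : k * (m * (2 * q + 1)) * 2 * (n + 1) ≤ 2 ^ q := by
      rw [← hn]
      refine (Nat.mul_le_mul_left _ hc1).trans ?_
      rw [hm, hq]
      exact arith1 k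
    have h2 : ((k * (m * (2 * q + 1)) * 2 : ℕ) : ℝ≥0∞) * ((n : ℝ≥0∞) + 1) ≤ 2 ^ q := by
      exact_mod_cast h1
    calc ((k * (m * (2 * q + 1)) * 2 : ℕ) : ℝ≥0∞) * 2⁻¹ ^ q * ((n : ℝ≥0∞) + 1)
        = (((k * (m * (2 * q + 1)) * 2 : ℕ) : ℝ≥0∞) * ((n : ℝ≥0∞) + 1)) * 2⁻¹ ^ q := by
          rw [mul_right_comm]
      _ ≤ 2 ^ q * 2⁻¹ ^ q := mul_le_mul_left h2 _
      _ = 1 := by
          rw [← mul_pow, ENNReal.mul_inv_cancel (by norm_num) (by norm_num), one_pow]

/-- **MP_041baa_co, negative answer.** There are random spanning tree models on `n + 1` vertices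
(for every `n`), start vertices `v₀ n` and preference orders `pri n` (used to break ties), such
that for every constant `C` and every `ε > 0`, for infinitely many `n` the probability that
`greedy exploration time ≤ C * texp` is at most `ε`. -/
theorem result :
    ∃ (M : ∀ n : ℕ, RSTModel (n + 1)) (v₀ : ∀ n : ℕ, Fin (n + 1))
      (pri : ∀ n : ℕ, Fin (n + 1) → ℕ),
      (∀ n, Function.Injective (pri n)) ∧
      ∀ (C : ℝ) (ε : ℝ≥0∞), 0 < ε → ∃ᶠ n : ℕ in atTop,
        (M n).seqLaw {G | (greedyTime G (pri n) (v₀ n) : ℝ≥0∞) ≤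
          ENNReal.ofReal C * (texp G : ℝ≥0∞)} ≤ ε := by
  classical
  have hex : ∀ n : ℕ, ∃ (M : RSTModel (n + 1)) (v₀ : Fin (n + 1)) (pri : Fin (n + 1) → ℕ),
      Function.Injective pri ∧ ((∃ M v₀ pri, Good n M v₀ pri) → Good n M v₀ pri) := by
    intro n
    by_cases h : ∃ M v₀ pri, Good n M v₀ pri
    · obtain ⟨M, v₀, pri, h1⟩ := h
      exact ⟨M, v₀, pri, h1.1, fun _ => h1⟩
    · obtain ⟨M⟩ := exists_model n
      exact ⟨M, 0, fun x => x, Fin.val_injective, fun h' => absurd h' h⟩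
  choose M v₀ pri hinj hgood using hex
  have hfreq : ∃ᶠ n : ℕ in atTop, Good n (M n) (v₀ n) (pri n) := by
    rw [frequently_atTop]
    intro n₀
    obtain ⟨n, hn, h⟩ := exists_good n₀
    exact ⟨n, hn, hgood n h⟩
  refine ⟨M, v₀, pri, hinj, ?_⟩
  intro C ε hε
  have h1 : ∀ᶠ n : ℕ in atTop, C ≤ Real.log (n + 1) / 100 := by
    have h2 : Tendsto (fun n : ℕ => Real.log ((n : ℝ) + 1)) atTop atTop :=
      Real.tendsto_log_atTop.comp
        (tendsto_atTop_add_const_right _ _ tendsto_natCast_atTop_atTop)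
    filter_upwards [h2.eventually_ge_atTop (100 * C)] with n hn
    linarith
  have h2 : ∀ᶠ n : ℕ in atTop, ((n : ℝ≥0∞) + 1)⁻¹ ≤ ε := by
    have h3 : Tendsto (fun n : ℕ => ((n : ℝ≥0∞) + 1)⁻¹) atTop (nhds 0) := by
      have h4 := ENNReal.tendsto_inv_nat_nhds_zero.comp (tendsto_add_atTop_nat 1)
      refine h4.congr fun n => ?_
      simp
    exact (h3.eventually_lt_const hε).mono fun n hn => hn.le
  refine (hfreq.and_eventually (h1.and h2)).mono ?_
  rintro n ⟨hG, hC, hε'⟩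
  refine (measure_mono ?_).trans (hG.2.trans hε')
  intro G hG'
  simp only [Set.mem_ofPred_eq] at hG' ⊢
  refine hG'.trans (mul_le_mul_left (ENNReal.ofReal_le_ofReal hC) _)

end Pool.Agent.Results.MP_041baa_co.GreedyDisproof
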